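import Mathlib
import Pool.Agent.R246.Radon

/-!
# The Fourier transform is not vaguely continuous on translation bounded measures
-/

namespace Pool.Agent.Results.MP_148afe_an.GaussianBlowup

open MeasureTheory Filter Topology Set FourierTransform Convolution Pool.Agent.R246
open scoped ENNReal BoundedContinuousFunction

noncomputable section

/-- `ℝ^d`. -/
abbrev Rd (d : ℕ) := EuclideanSpace ℝ (Fin d)

/-- `f~(x) = conj (f(-x))`. -/
def tld {d : ℕ} (f : Rd d → ℂ) (x : Rd d) : ℂ := (starRingEnd ℂ) (f (-x))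

/-- `ν` is the Fourier transform of the measure `μ`: for all `f ∈ C_c(ℝ^d)`, the inverse Fourier
transform `𝓕⁻ f (y) = ∫ f(x) exp (2 π i x·y) dx` is in `L²(|ν|)`, and
`μ(f * f~) = ν(|𝓕⁻ f|²)`. -/
def IsFourierTransform {d : ℕ} (μ ν : CRadon (Rd d)) : Prop :=
  ∀ f : Rd d → ℂ, Continuous f → HasCompactSupport f →
    MemLp (𝓕⁻ f) 2 ν.absM ∧
    μ.integral (f ⋆[ContinuousLinearMap.mul ℂ ℂ, volume] tld f) =
      ν.integral (fun y => ((‖𝓕⁻ f y‖ ^ 2 : ℝ) : ℂ))

/-- `‖μ‖_K = sup_x |μ|(x + K)`. -/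
def normK {d : ℕ} (K : Set (Rd d)) (μ : CRadon (Rd d)) : ℝ≥0∞ :=
  ⨆ x : Rd d, μ.absM ((fun y => x + y) '' K)

/-- `μ` is translation bounded: `‖μ‖_K < ∞` for every compact set `K`. -/
def TranslationBounded {d : ℕ} (μ : CRadon (Rd d)) : Prop :=
  ∀ K : Set (Rd d), IsCompact K → normK K μ < ⊤

lemma normK_le {d : ℕ} (u : Rd d → ℂ) (hu : Continuous u) {C : ℝ} (hC : ∀ x, ‖u x‖ ≤ C)
    (K : Set (Rd d)) : normK K (CRadon.ofDensity u hu) ≤ ENNReal.ofReal C * volume K := by
  unfold normK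
  refine iSup_le fun x => ?_
  rw [CRadon.absM_ofDensity]
  have h1 : (volume.withDensity fun x => ENNReal.ofReal ‖u x‖) ≤
      ENNReal.ofReal C • (volume : Measure (Rd d)) := by
    rw [← withDensity_const]
    exact withDensity_mono (Eventually.of_forall fun x => ENNReal.ofReal_le_ofReal (hC x))
  refine (h1 _).trans ?_
  rw [Measure.smul_apply, smul_eq_mul]
  have h2 : (fun y => x + y) '' K = (fun y => (-x) + y) ⁻¹' K := by
    ext y
    simp only [mem_image, mem_preimage]
    constructor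
    · rintro ⟨z, hz, rfl⟩; simpa using hz
    · intro h; exact ⟨-x + y, h, by simp⟩
  rw [h2, measure_preimage_add]

/-- the parameter `b = π (a² - i a)` -/
def bb (a : ℝ) : ℂ := Real.pi * ((a ^ 2 : ℝ) - a * Complex.I)

lemma bb_re (a : ℝ) : (bb a).re = Real.pi * a ^ 2 := by
  unfold bb
  rw [Complex.re_ofReal_mul, Complex.sub_re, Complex.ofReal_re, Complex.re_ofReal_mul,
    Complex.I_re]
  ring

lemma bb_im (a : ℝ) : (bb a).im = - (Real.pi * a) := by
  unfold bb
  rw [Complex.im_ofReal_mul, Complex.sub_im, Complex.ofReal_im, Complex.im_ofReal_mul,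
    Complex.I_im]
  ring

lemma bb_re_pos {a : ℝ} (ha : 0 < a) : 0 < (bb a).re := by
  rw [bb_re]; have := Real.pi_pos; positivity

/-- the function whose Lebesgue density defines the measure -/
def ff {d : ℕ} (c a : ℝ) (x : Rd d) : ℂ := c * Complex.exp (-(bb a) * ‖x‖ ^ 2)

lemma ff_cont {d : ℕ} (c a : ℝ) : Continuous (ff c a : Rd d → ℂ) := by
  unfold ff; fun_prop

lemma ff_norm {d : ℕ} {c a : ℝ} (hc : 0 ≤ c) (x : Rd d) :
    ‖ff c a x‖ = c * Real.exp (-(Real.pi * a ^ 2) * ‖x‖ ^ 2) := by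
  unfold ff
  rw [norm_mul, Complex.norm_real, Real.norm_of_nonneg hc, Complex.norm_exp]
  congr 2
  have : (-(bb a) * (‖x‖ : ℂ) ^ 2) = ((‖x‖ ^ 2 : ℝ) : ℂ) * (-(bb a)) := by push_cast; ring
  rw [this, Complex.re_ofReal_mul, Complex.neg_re, bb_re]
  ring

lemma ff_norm_le {d : ℕ} {c a : ℝ} (hc : 0 ≤ c) (x : Rd d) : ‖ff c a x‖ ≤ c := by
  rw [ff_norm hc]
  have : Real.exp (-(Real.pi * a ^ 2) * ‖x‖ ^ 2) ≤ 1 := by
    rw [Real.exp_le_one_iff]
    have := Real.pi_pos
    have : 0 ≤ Real.pi * a ^ 2 * ‖x‖ ^ 2 := by positivity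
    linarith
  nlinarith

lemma ff_int {d : ℕ} (c : ℝ) {a : ℝ} (ha : 0 < a) : Integrable (ff c a : Rd d → ℂ) := by
  have := GaussianFourier.integrable_cexp_neg_mul_sq_norm_add (V := Rd d) (bb_re_pos ha) 0 0
  simp only [zero_mul, add_zero] at this
  exact this.const_mul _

/-- its Fourier transform -/
def gg {d : ℕ} (c a : ℝ) (y : Rd d) : ℂ :=
  c * ((Real.pi / bb a) ^ (d / 2 : ℂ) * Complex.exp (-(Real.pi ^ 2 / bb a) * ‖y‖ ^ 2))

lemma fourier_ff {d : ℕ} (c : ℝ) {a : ℝ} (ha : 0 < a) : 𝓕 (ff c a : Rd d → ℂ) = gg c a := by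
  funext y
  have h := fourier_gaussian_innerProductSpace (V := Rd d) (bb_re_pos ha) y
  have e : (ff c a : Rd d → ℂ) = fun x => (c : ℂ) • Complex.exp (-(bb a) * ‖x‖ ^ 2) := rfl
  rw [e, Real.fourier_eq]
  simp_rw [smul_comm _ (c : ℂ)]
  rw [integral_smul, ← Real.fourier_eq, h]
  unfold gg
  rw [finrank_euclideanSpace_fin, smul_eq_mul]
  congr 2
  ring_nf

lemma gg_cont {d : ℕ} (c a : ℝ) : Continuous (gg c a : Rd d → ℂ) := by
  unfold gg; fun_prop

lemma inv_re {a : ℝ} (ha : 0 < a) : (Real.pi ^ 2 / bb a).re = Real.pi / (1 + a ^ 2) := by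
  have h : (Real.pi ^ 2 / bb a : ℂ) = ((Real.pi ^ 2 : ℝ) : ℂ) * (bb a)⁻¹ := by
    push_cast; rw [div_eq_mul_inv]
  rw [h, Complex.re_ofReal_mul, Complex.inv_re, Complex.normSq_apply, bb_re, bb_im]
  have := Real.pi_pos
  field_simp
  ring

lemma gg_norm {d : ℕ} {c a : ℝ} (hc : 0 ≤ c) (ha : 0 < a) (y : Rd d) :
    ‖gg c a y‖ = c * (‖(Real.pi / bb a : ℂ)‖ ^ (d / 2 : ℝ) *
      Real.exp (-(Real.pi / (1 + a ^ 2)) * ‖y‖ ^ 2)) := by
  unfold gg
  rw [norm_mul, norm_mul, Complex.norm_real, Real.norm_of_nonneg hc, Complex.norm_exp]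
  have e1 : ((d : ℂ) / 2) = (((d / 2 : ℝ)) : ℂ) := by push_cast; ring
  have hne : (Real.pi / bb a : ℂ) ≠ 0 := by
    have h1 : (Real.pi : ℂ) ≠ 0 := by exact_mod_cast Real.pi_ne_zero
    have h2 : bb a ≠ 0 := by
      intro h; have := bb_re_pos ha; rw [h] at this; simp at this
    exact div_ne_zero h1 h2
  rw [e1, Complex.norm_cpow_of_ne_zero hne]
  simp only [Complex.ofReal_re, Complex.ofReal_im, mul_zero, Real.exp_zero, div_one]
  congr 3
  have : (-(Real.pi ^ 2 / bb a) * (‖y‖ : ℂ) ^ 2) = ((‖y‖ ^ 2 : ℝ) : ℂ) * (-(Real.pi ^ 2 / bb a)) := by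
    push_cast; ring
  rw [this, Complex.re_ofReal_mul, Complex.neg_re, inv_re ha]
  ring

lemma ratio_norm {a : ℝ} (ha : 0 < a) (ha1 : a ≤ 1) : 1 / (2 * a) ≤ ‖(Real.pi / bb a : ℂ)‖ := by
  have h : ‖bb a‖ ≤ Real.pi * (2 * a) := by
    unfold bb
    rw [norm_mul, Complex.norm_real, Real.norm_of_nonneg Real.pi_pos.le]
    refine mul_le_mul_of_nonneg_left ?_ Real.pi_pos.le
    refine (norm_sub_le _ _).trans ?_
    rw [norm_mul, Complex.norm_real, Complex.norm_real, Complex.norm_I, mul_one,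
      Real.norm_of_nonneg (by positivity), Real.norm_of_nonneg ha.le]
    nlinarith
  have h2 : 0 < ‖bb a‖ := by
    rw [norm_pos_iff]; intro h; have := bb_re_pos ha; rw [h] at this; simp at this
  rw [norm_div, Complex.norm_real, Real.norm_of_nonneg Real.pi_pos.le]
  rw [div_le_div_iff₀ (by positivity) h2]
  linarith

lemma gg_int {d : ℕ} (c : ℝ) {a : ℝ} (ha : 0 < a) : Integrable (gg c a : Rd d → ℂ) := by
  have hre : 0 < (Real.pi ^ 2 / bb a).re := by
    rw [inv_re ha]; have := Real.pi_pos; positivity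
  have := GaussianFourier.integrable_cexp_neg_mul_sq_norm_add (V := Rd d) hre 0 0
  simp only [zero_mul, add_zero] at this
  exact (this.const_mul _).const_mul _

lemma inv_tld {d : ℕ} (f : Rd d → ℂ) (y : Rd d) :
    𝓕⁻ (tld f) y = (starRingEnd ℂ) (𝓕⁻ f y) := by
  rw [Real.fourierInv_eq', Real.fourierInv_eq', ← integral_conj]
  rw [← integral_neg_eq_self]
  congr 1
  funext x
  unfold tld
  rw [smul_eq_mul, smul_eq_mul, map_mul, neg_neg]
  congr 1
  rw [← Complex.exp_conj, map_mul, Complex.conj_ofReal, Complex.conj_I]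
  congr 1
  rw [inner_neg_left]
  push_cast; ring

lemma fourierInv_flip {d : ℕ} (G u : Rd d → ℂ) (hG : Integrable G) (hu : Integrable u) :
    ∫ x, G x * 𝓕⁻ u x = ∫ y, 𝓕⁻ G y * u y := by
  have h := VectorFourier.integral_fourierIntegral_smul_eq_flip (L := -(innerₗ (Rd d)))
    Real.continuous_fourierChar (by
      simp only [LinearMap.neg_apply, innerₗ_apply_apply]
      fun_prop) hG hu (μ := volume) (ν := volume)
  have e1 : (-(innerₗ (Rd d))).flip = -(innerₗ (Rd d)) := by
    ext x y; simp [real_inner_comm]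
  rw [e1] at h
  exact h.symm

lemma isFT {d : ℕ} {c a : ℝ} (ha : 0 < a) :
    IsFourierTransform (CRadon.ofDensity (ff c a : Rd d → ℂ) (ff_cont c a))
      (CRadon.ofDensity (gg c a) (gg_cont c a)) := by
  intro f hf hfc
  have hfi : Integrable f := hf.integrable_of_hasCompactSupport hfc
  have htc : Continuous (tld f) := by unfold tld; fun_prop
  have hts : HasCompactSupport (tld f) := by
    have h1 : HasCompactSupport fun x => f (-x) := hfc.comp_homeomorph (Homeomorph.neg (Rd d))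
    exact h1.comp_left (g := starRingEnd ℂ) (map_zero _)
  have hti : Integrable (tld f) := htc.integrable_of_hasCompactSupport hts
  constructor
  · -- finite total mass
    have hfin : IsFiniteMeasure (CRadon.ofDensity (gg c a : Rd d → ℂ) (gg_cont c a)).absM := by
      rw [CRadon.absM_ofDensity]
      refine ⟨?_⟩
      rw [withDensity_apply _ MeasurableSet.univ, Measure.restrict_univ]
      have := (gg_int (d := d) c ha).2
      unfold HasFiniteIntegral at this
      simpa [ofReal_norm] using this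
    have hcont : Continuous (𝓕⁻ f) := by
      have e : (𝓕⁻ f) = fun y => 𝓕 f (-y) := by
        funext y; rw [Real.fourierInv_eq_fourier_neg]
      rw [e]
      have h1 : Continuous (𝓕 f) :=
        VectorFourier.fourierIntegral_continuous (L := innerₗ (Rd d)) Real.continuous_fourierChar
          continuous_inner hfi
      exact h1.comp continuous_neg
    refine MemLp.of_bound hcont.aestronglyMeasurable (∫ x, ‖f x‖) (Eventually.of_forall fun y => ?_)
    rw [Real.fourierInv_eq']
    refine (norm_integral_le_integral_norm _).trans_eq ?_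
    congr 1
    funext x
    rw [norm_smul, Complex.norm_exp_ofReal_mul_I, one_mul]
  · rw [CRadon.integral_ofDensity, CRadon.integral_ofDensity]
    have hG := hfi.integrable_convolution (ContinuousLinearMap.mul ℂ ℂ) hti
    have hinv : 𝓕⁻ (gg c a : Rd d → ℂ) = ff c a := by
      rw [← fourier_ff c ha]
      exact (ff_cont c a).fourierInv_fourier_eq (ff_int c ha) (by rw [fourier_ff c ha]; exact gg_int c ha)
    rw [← hinv, fourierInv_flip _ _ hG (gg_int c ha)]
    congr 1
    funext y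
    congr 1
    rw [Real.fourierInv_eq_fourier_neg, Real.fourier_mul_convolution_eq hfi hti,
      ← Real.fourierInv_eq_fourier_neg, ← Real.fourierInv_eq_fourier_neg, inv_tld]
    rw [Complex.mul_conj, Complex.normSq_eq_norm_sq]

/-- the functional `g ↦ ∫ χ g u` -/
def TT {d : ℕ} (χ u : Rd d → ℂ) (hχ : Continuous χ) (hχc : HasCompactSupport χ)
    (hu : Continuous u) : (Rd d →ᵇ ℂ) →L[ℂ] ℂ :=
  LinearMap.mkContinuous
    { toFun := fun g => ∫ x, χ x * g x * u x
      map_add' := by
        intro g h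
        have hi : ∀ g : Rd d →ᵇ ℂ, Integrable fun x => χ x * g x * u x := fun g =>
          ((hχ.mul g.continuous).mul hu).integrable_of_hasCompactSupport (hχc.mul_right.mul_right)
        rw [← integral_add (hi g) (hi h)]
        congr 1
        funext x
        simp only [BoundedContinuousFunction.coe_add, Pi.add_apply]
        ring
      map_smul' := by
        intro c g
        simp only [RingHom.id_apply, smul_eq_mul]
        rw [← integral_const_mul]
        congr 1
        funext x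
        simp only [BoundedContinuousFunction.coe_smul, smul_eq_mul]
        ring }
    (∫ x, ‖χ x * u x‖) (by
      intro g
      have hi : Integrable fun x => χ x * u x :=
        (hχ.mul hu).integrable_of_hasCompactSupport hχc.mul_right
      simp only [LinearMap.coe_mk, AddHom.coe_mk]
      refine (norm_integral_le_integral_norm _).trans ?_
      rw [← integral_mul_const]
      refine integral_mono_of_nonneg (Eventually.of_forall fun x => norm_nonneg _)
        (hi.norm.mul_const _) (Eventually.of_forall fun x => ?_)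
      simp only
      rw [norm_mul, norm_mul, norm_mul]
      have := g.norm_coe_le_norm x
      have h0 : 0 ≤ ‖χ x‖ * ‖u x‖ := by positivity
      nlinarith)

lemma TT_apply {d : ℕ} (χ u : Rd d → ℂ) (hχ : Continuous χ) (hχc : HasCompactSupport χ)
    (hu : Continuous u) (g : Rd d →ᵇ ℂ) : TT χ u hχ hχc hu g = ∫ x, χ x * g x * u x := rfl

/-- `conj u / |u|` for a nowhere vanishing continuous function -/
def sgnc {d : ℕ} (u : Rd d → ℂ) (hu : Continuous u) (h0 : ∀ x, u x ≠ 0) : Rd d →ᵇ ℂ :=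
  BoundedContinuousFunction.ofNormedAddCommGroup (fun x => (starRingEnd ℂ) (u x) / ‖u x‖)
    (by
      refine (Complex.continuous_conj.comp hu).div (Complex.continuous_ofReal.comp hu.norm) ?_
      intro x
      exact_mod_cast norm_ne_zero_iff.2 (h0 x)) 1 (by
      intro x
      rw [norm_div, RCLike.norm_conj, Complex.norm_real, norm_norm]
      exact (div_self (norm_ne_zero_iff.2 (h0 x))).le)

lemma sgnc_norm {d : ℕ} (u : Rd d → ℂ) (hu : Continuous u) (h0 : ∀ x, u x ≠ 0) :
    ‖sgnc u hu h0‖ ≤ 1 :=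
  BoundedContinuousFunction.norm_ofNormedAddCommGroup_le _ zero_le_one _

lemma gg_ne {d : ℕ} {c a : ℝ} (hc : 0 < c) (ha : 0 < a) (y : Rd d) : gg c a y ≠ 0 := by
  unfold gg
  have h1 : (Real.pi : ℂ) ≠ 0 := by exact_mod_cast Real.pi_ne_zero
  have h2 : bb a ≠ 0 := by
    intro h; have := bb_re_pos ha; rw [h] at this; simp at this
  have h3 : (Real.pi / bb a : ℂ) ≠ 0 := div_ne_zero h1 h2
  have h4 : (Real.pi / bb a : ℂ) ^ (d / 2 : ℂ) ≠ 0 := by
    rw [Ne, Complex.cpow_eq_zero_iff]; tauto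
  have h5 : (c : ℂ) ≠ 0 := by exact_mod_cast hc.ne'
  exact mul_ne_zero h5 (mul_ne_zero h4 (Complex.exp_ne_zero _))

/-- lower bound for `|g|` -/
lemma gg_lower {d : ℕ} (hd : 1 ≤ d) {a : ℝ} (ha : 0 < a) (ha1 : a ≤ 1 / 2) (y : Rd d) :
    (1 / (2 * a)) ^ (1 / 4 : ℝ) / 2 * Real.exp (-Real.pi * ‖y‖ ^ 2) ≤ ‖gg (a ^ (1 / 4 : ℝ)) a y‖ := by
  rw [gg_norm (by positivity) ha]
  have h1 : (1 / (2 * a)) ^ (1 / 2 : ℝ) ≤ ‖(Real.pi / bb a : ℂ)‖ ^ (d / 2 : ℝ) := by
    have hR := ratio_norm ha (by linarith)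
    have h2 : 1 ≤ 1 / (2 * a) := by
      rw [le_div_iff₀ (by positivity)]; linarith
    calc (1 / (2 * a)) ^ (1 / 2 : ℝ) ≤ (1 / (2 * a)) ^ (d / 2 : ℝ) := by
          refine Real.rpow_le_rpow_of_exponent_le h2 ?_
          have : (1 : ℝ) ≤ d := by exact_mod_cast hd
          linarith
      _ ≤ _ := Real.rpow_le_rpow (by positivity) hR (by positivity)
  have h3 : Real.exp (-Real.pi * ‖y‖ ^ 2) ≤ Real.exp (-(Real.pi / (1 + a ^ 2)) * ‖y‖ ^ 2) := by
    refine Real.exp_le_exp.2 ?_
    have h4 : Real.pi / (1 + a ^ 2) ≤ Real.pi := div_le_self Real.pi_pos.le (by nlinarith)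
    have := sq_nonneg ‖y‖
    nlinarith
  have h5 : (1 / (2 * a)) ^ (1 / 4 : ℝ) / 2 ≤ a ^ (1 / 4 : ℝ) * (1 / (2 * a)) ^ (1 / 2 : ℝ) := by
    have e : (1 / (2 * a)) ^ (1 / 2 : ℝ) = (1 / (2 * a)) ^ (1 / 4 : ℝ) * (1 / (2 * a)) ^ (1 / 4 : ℝ) := by
      rw [← Real.rpow_add (by positivity)]; norm_num
    have e2 : a ^ (1 / 4 : ℝ) * (1 / (2 * a)) ^ (1 / 4 : ℝ) = (1 / 2) ^ (1 / 4 : ℝ) := by
      rw [← Real.mul_rpow ha.le (by positivity)]
      congr 1
      field_simp
    have e3 : (1 / 2 : ℝ) ≤ (1 / 2) ^ (1 / 4 : ℝ) := by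
      have := Real.rpow_le_rpow_of_exponent_ge (x := (1 / 2 : ℝ)) (by norm_num) (by norm_num)
        (show (1 / 4 : ℝ) ≤ 1 by norm_num)
      simpa using this
    rw [e, ← mul_assoc, e2]
    have h6 : 0 ≤ (1 / (2 * a)) ^ (1 / 4 : ℝ) := by positivity
    nlinarith
  calc (1 / (2 * a)) ^ (1 / 4 : ℝ) / 2 * Real.exp (-Real.pi * ‖y‖ ^ 2)
      ≤ (a ^ (1 / 4 : ℝ) * (1 / (2 * a)) ^ (1 / 2 : ℝ)) *
        Real.exp (-(Real.pi / (1 + a ^ 2)) * ‖y‖ ^ 2) := by
        refine mul_le_mul h5 h3 (Real.exp_pos _).le (by positivity)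
    _ ≤ _ := by
        rw [mul_assoc]
        refine mul_le_mul_of_nonneg_left ?_ (by positivity)
        exact mul_le_mul_of_nonneg_right h1 (Real.exp_pos _).le

lemma gg_bdd {d : ℕ} {c a : ℝ} (hc : 0 ≤ c) (ha : 0 < a) (y : Rd d) :
    ‖gg c a y‖ ≤ c * (‖(Real.pi / bb a : ℂ)‖ ^ (d / 2 : ℝ)) := by
  rw [gg_norm hc ha]
  have h : Real.exp (-(Real.pi / (1 + a ^ 2)) * ‖y‖ ^ 2) ≤ 1 := by
    rw [Real.exp_le_one_iff]
    have := Real.pi_pos
    have : 0 ≤ (Real.pi / (1 + a ^ 2)) * ‖y‖ ^ 2 := by positivity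
    linarith
  refine mul_le_mul_of_nonneg_left ?_ hc
  exact mul_le_of_le_one_right (by positivity) h

/-- **Main theorem.** For every `d ≥ 1` there are Fourier transformable translation bounded
measures `μₙ` on `ℝ^d` with `‖μₙ‖_K → 0` for every compact set `K`, such that the Fourier
transforms `μₙ^` do not converge vaguely to `0`. -/
theorem result (d : ℕ) (hd : 1 ≤ d) :
    ∃ μ muHat : ℕ → CRadon (Rd d),
      (∀ n, IsFourierTransform (μ n) (muHat n)) ∧
      (∀ n, TranslationBounded (μ n)) ∧ (∀ n, TranslationBounded (muHat n)) ∧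
      (∀ K : Set (Rd d), IsCompact K → Tendsto (fun n => normK K (μ n)) atTop (𝓝 0)) ∧
      ¬ CRadon.VagueTendsto muHat CRadon.zero := by
  -- parameters
  set a : ℕ → ℝ := fun n => 1 / ((n : ℝ) + 2) with ha_def
  have ha : ∀ n, 0 < a n := fun n => by simp only [ha_def]; positivity
  have ha2 : ∀ n, a n ≤ 1 / 2 := fun n => by
    simp only [ha_def]
    refine one_div_le_one_div_of_le (by norm_num) ?_
    have : (0 : ℝ) ≤ n := n.cast_nonneg
    linarith
  have hat : Tendsto a atTop (𝓝 0) := by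
    have h1 : Tendsto (fun n : ℕ => (n : ℝ) + 2) atTop atTop :=
      tendsto_atTop_add_const_right _ _ tendsto_natCast_atTop_atTop
    have h2 := h1.inv_tendsto_atTop
    refine h2.congr fun n => ?_
    simp only [ha_def, one_div, Pi.inv_apply]
  set c : ℕ → ℝ := fun n => (a n) ^ (1 / 4 : ℝ) with hc_def
  have hc : ∀ n, 0 < c n := fun n => Real.rpow_pos_of_pos (ha n) _
  have hct : Tendsto c atTop (𝓝 0) := by
    have := hat.rpow_const (p := (1 / 4 : ℝ)) (Or.inr (by norm_num))
    rwa [Real.zero_rpow (by norm_num)] at this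
  refine ⟨fun n => CRadon.ofDensity (ff (c n) (a n)) (ff_cont _ _),
    fun n => CRadon.ofDensity (gg (c n) (a n)) (gg_cont _ _),
    fun n => isFT (ha n), ?_, ?_, ?_, ?_⟩
  · intro n K hK
    refine (normK_le _ _ (fun x => ff_norm_le (hc n).le x) K).trans_lt ?_
    exact ENNReal.mul_lt_top ENNReal.ofReal_lt_top hK.measure_lt_top
  · intro n K hK
    refine (normK_le _ _ (fun x => gg_bdd (hc n).le (ha n) x) K).trans_lt ?_
    exact ENNReal.mul_lt_top ENNReal.ofReal_lt_top hK.measure_lt_top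
  · intro K hK
    have h1 : Tendsto (fun n => ENNReal.ofReal (c n) * volume K) atTop (𝓝 0) := by
      have h2 := ENNReal.tendsto_ofReal hct
      rw [ENNReal.ofReal_zero] at h2
      have h3 := ENNReal.Tendsto.mul_const (b := volume K) h2 (Or.inr hK.measure_lt_top.ne)
      simpa using h3
    refine tendsto_of_tendsto_of_tendsto_of_le_of_le tendsto_const_nhds h1 (fun n => zero_le)
      (fun n => normK_le _ _ (fun x => ff_norm_le (hc n).le x) K)
  · intro hv
    -- bump function
    set φ : ContDiffBump (0 : Rd d) := ⟨1, 2, one_pos, one_lt_two⟩ with hφ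
    set χ : Rd d → ℂ := fun x => ((φ x : ℝ) : ℂ) with hχ_def
    have hχ : Continuous χ := Complex.continuous_ofReal.comp φ.continuous
    have hχc : HasCompactSupport χ := φ.hasCompactSupport.comp_left Complex.ofReal_zero
    set g : ℕ → Rd d → ℂ := fun n => gg (c n) (a n) with hg_def
    have hg : ∀ n, Continuous (g n) := fun n => gg_cont _ _
    have hg0 : ∀ n x, g n x ≠ 0 := fun n x => gg_ne (hc n) (ha n) x
    -- uniform boundedness
    obtain ⟨M, hM⟩ := banach_steinhaus (g := fun n => TT χ (g n) hχ hχc (hg n)) (by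
      intro h
      have h1 := hv (fun x => χ x * h x) (hχ.mul h.continuous) hχc.mul_right
      have h2 : Tendsto (fun n => TT χ (g n) hχ hχc (hg n) h) atTop (𝓝 0) := by
        simp only [CRadon.integral_zero, CRadon.integral_ofDensity] at h1
        exact h1
      obtain ⟨C, hC⟩ := h2.norm.bddAbove_range
      exact ⟨C, fun n => hC ⟨n, rfl⟩⟩)
    set I0 : ℝ := ∫ x in Metric.closedBall (0 : Rd d) 1, Real.exp (-Real.pi * ‖x‖ ^ 2) with hI0
    have hI0pos : 0 < I0 := by
      rw [hI0, setIntegral_pos_iff_support_of_nonneg_ae]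
      · have e : (Function.support fun x : Rd d => Real.exp (-Real.pi * ‖x‖ ^ 2)) = univ := by
          ext x; simp [Real.exp_ne_zero]
        rw [e, univ_inter]
        exact Metric.measure_closedBall_pos _ _ one_pos
      · exact Eventually.of_forall fun x => (Real.exp_pos _).le
      · exact (Continuous.continuousOn (by fun_prop)).integrableOn_compact
          (isCompact_closedBall _ _)
    have key : ∀ n, (1 / (2 * a n)) ^ (1 / 4 : ℝ) / 2 * I0 ≤ M := by
      intro n
      have h1 : ‖TT χ (g n) hχ hχc (hg n) (sgnc (g n) (hg n) (hg0 n))‖ ≤ M := by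
        refine ((TT χ (g n) hχ hχc (hg n)).le_opNorm _).trans ?_
        refine (mul_le_mul (hM n) (sgnc_norm _ _ _) (norm_nonneg _)
          ((norm_nonneg _).trans (hM n))).trans_eq (mul_one _)
      have h2 : TT χ (g n) hχ hχc (hg n) (sgnc (g n) (hg n) (hg0 n)) =
          ((∫ x, φ x * ‖g n x‖ : ℝ) : ℂ) := by
        rw [TT_apply, ← integral_complex_ofReal]
        congr 1
        funext x
        have h3 : ((sgnc (g n) (hg n) (hg0 n) : Rd d →ᵇ ℂ) x) =
          (starRingEnd ℂ) (g n x) / ‖g n x‖ := rfl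
        have h4 : (‖g n x‖ : ℂ) ≠ 0 := by exact_mod_cast norm_ne_zero_iff.2 (hg0 n x)
        rw [h3]
        have h5 : (starRingEnd ℂ) (g n x) * g n x = (‖g n x‖ : ℂ) * ‖g n x‖ := by
          rw [mul_comm, Complex.mul_conj, Complex.normSq_eq_norm_sq]
          push_cast; ring
        simp only [hχ_def]
        push_cast
        rw [mul_assoc, div_mul_eq_mul_div, h5, mul_div_assoc, div_self h4, mul_one]
      rw [h2, Complex.norm_real] at h1
      refine le_trans ?_ ((le_abs_self _).trans h1)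
      have hint : Integrable fun x => φ x * ‖g n x‖ :=
        (φ.continuous.mul (hg n).norm).integrable_of_hasCompactSupport
          φ.hasCompactSupport.mul_right
      calc (1 / (2 * a n)) ^ (1 / 4 : ℝ) / 2 * I0
          = ∫ x in Metric.closedBall (0 : Rd d) 1,
              (1 / (2 * a n)) ^ (1 / 4 : ℝ) / 2 * Real.exp (-Real.pi * ‖x‖ ^ 2) := by
            rw [hI0, integral_const_mul]
        _ ≤ ∫ x in Metric.closedBall (0 : Rd d) 1, φ x * ‖g n x‖ := by
            refine setIntegral_mono_on ?_ hint.integrableOn measurableSet_closedBall ?_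
            · exact (Continuous.continuousOn (by fun_prop)).integrableOn_compact
                (isCompact_closedBall _ _)
            · intro x hx
              rw [φ.one_of_mem_closedBall hx, one_mul]
              exact gg_lower hd (ha n) (ha2 n) x
        _ ≤ ∫ x, φ x * ‖g n x‖ := by
            refine setIntegral_le_integral hint (Eventually.of_forall fun x => ?_)
            exact mul_nonneg φ.nonneg (norm_nonneg _)
    -- contradiction
    have hinf : Tendsto (fun n => (1 / (2 * a n)) ^ (1 / 4 : ℝ) / 2 * I0) atTop atTop := by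
      refine Tendsto.atTop_mul_const hI0pos (Tendsto.atTop_div_const (by norm_num) ?_)
      refine (tendsto_rpow_atTop (by norm_num : (0 : ℝ) < 1 / 4)).comp ?_
      have e : (fun n => 1 / (2 * a n)) = fun n : ℕ => ((n : ℝ) + 2) / 2 := by
        funext n
        simp only [ha_def]
        have : (0 : ℝ) < (n : ℝ) + 2 := by positivity
        field_simp
      rw [e]
      exact Tendsto.atTop_div_const (by norm_num)
        (tendsto_atTop_add_const_right _ _ tendsto_natCast_atTop_atTop)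
    obtain ⟨n, hn⟩ := (hinf.eventually_gt_atTop M).exists
    exact absurd (key n) (not_le.2 hn)

end

end Pool.Agent.Results.MP_148afe_an.GaussianBlowup
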